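import Mathlib

/-!
# Cluster sets of sequences of laws: compactness, connectedness, comparison
-/

set_option autoImplicit false

namespace Q172.SawLim

open MeasureTheory Filter Topology Set
open scoped NNReal ENNReal

/-- The cluster set of a sequence in a compact set whose consecutive terms have the same limits is
compact and connected. -/
theorem connected_cluster {T : Type*} [TopologicalSpace T] [T2Space T] [FirstCountableTopology T]
    (P : ℕ → T) (K : Set T) (hK : IsCompact K) (hP : ∀ k, P k ∈ K)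
    (hstep : ∀ (F : Filter ℕ), F.IsCountablyGenerated → F ≤ atTop → ∀ ν, Tendsto P F (𝓝 ν) →
      Tendsto (fun k => P (k + 1)) F (𝓝 ν)) :
    IsCompact {ν | MapClusterPt ν atTop P} ∧ IsConnected {ν | MapClusterPt ν atTop P} := by
  have hKc : IsClosed K := hK.isClosed
  have hsub : {ν | MapClusterPt ν atTop P} ⊆ K := by
    intro ν hν
    by_contra hcon
    have h1 : Kᶜ ∈ 𝓝 ν := hKc.isOpen_compl.mem_nhds hcon
    have h2 := hν.frequently h1
    obtain ⟨k, hk⟩ := h2.exists
    exact hk (hP k)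
  have hclosed : IsClosed {ν | MapClusterPt ν atTop P} := isClosed_setOfPred_clusterPt
  have hcomp : IsCompact {ν | MapClusterPt ν atTop P} := hK.of_isClosed_subset hclosed hsub
  refine ⟨hcomp, ?_, ?_⟩
  · obtain ⟨ν, _, hν⟩ := hK.exists_mapClusterPt (f := atTop) (u := P)
      (by rw [Filter.le_principal_iff]; exact Filter.mem_map.2 (Filter.univ_mem' hP))
    exact ⟨ν, hν⟩
  · rw [isPreconnected_closed_iff]
    intro A B hA hB hAB hLA hLB
    by_contra hcon
    have hdisj : Disjoint ({ν | MapClusterPt ν atTop P} ∩ A) ({ν | MapClusterPt ν atTop P} ∩ B) := by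
      rw [Set.disjoint_left]
      rintro x ⟨h1, h2⟩ ⟨_, h3⟩
      exact hcon ⟨x, h1, h2, h3⟩
    obtain ⟨U, V, hU, hV, hAU, hBV, hUV⟩ :=
      SeparatedNhds.of_isCompact_isCompact (hcomp.inter_right hA) (hcomp.inter_right hB) hdisj
    -- eventually `P k ∈ U ∪ V`
    have hev : ∀ᶠ k in atTop, P k ∈ U ∪ V := by
      by_contra hcon2
      have hfr : ∃ᶠ k in atTop, P k ∈ (U ∪ V)ᶜ := by
        rw [Filter.not_eventually] at hcon2
        exact hcon2
      have hne : (atTop ⊓ 𝓟 {k | P k ∈ (U ∪ V)ᶜ}).NeBot := by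
        rw [← Filter.frequently_mem_iff_neBot]
        exact hfr
      obtain ⟨ν, hνK, hν⟩ := (hK.inter_right (hU.union hV).isClosed_compl).exists_mapClusterPt
        (f := atTop ⊓ 𝓟 {k | P k ∈ (U ∪ V)ᶜ}) (u := P) (by
          rw [Filter.le_principal_iff, Filter.mem_map]
          refine Filter.mem_of_superset (Filter.mem_inf_of_right (Filter.mem_principal_self _)) ?_
          intro k hk
          exact ⟨hP k, hk⟩)
      have hνL : MapClusterPt ν atTop P := hν.mono (Filter.map_mono inf_le_left)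
      rcases hAB hνL with h | h
      · exact hνK.2 (Or.inl (hAU ⟨hνL, h⟩))
      · exact hνK.2 (Or.inr (hBV ⟨hνL, h⟩))
    obtain ⟨a, haL, haA⟩ := hLA
    obtain ⟨b, hbL, hbB⟩ := hLB
    have hfU : ∃ᶠ k in atTop, P k ∈ U :=
      MapClusterPt.frequently haL (hU.mem_nhds (hAU ⟨haL, haA⟩))
    have hfV : ∃ᶠ k in atTop, P k ∈ V :=
      MapClusterPt.frequently hbL (hV.mem_nhds (hBV ⟨hbL, hbB⟩))
    have hfUV : ∃ᶠ k in atTop, P k ∈ U ∧ P (k + 1) ∈ V := by
      by_contra hcon2
      rw [Filter.not_frequently] at hcon2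
      obtain ⟨N, hN⟩ := Filter.eventually_atTop.1 (hev.and hcon2)
      obtain ⟨k0, hk0N, hk0⟩ := Filter.frequently_atTop.1 hfU N
      have hstay : ∀ j, P (k0 + j) ∈ U := by
        intro j
        induction j with
        | zero => exact hk0
        | succ j ih =>
          have h1 := (hN (k0 + (j + 1)) (by omega)).1
          rcases h1 with h1 | h1
          · exact h1
          · exact absurd ⟨ih, h1⟩ (hN (k0 + j) (by omega)).2
      obtain ⟨k1, hk1, hk1V⟩ := Filter.frequently_atTop.1 hfV k0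
      obtain ⟨j, rfl⟩ := Nat.exists_eq_add_of_le hk1
      exact Set.disjoint_left.1 hUV (hstay j) hk1V
    have hne : (atTop ⊓ 𝓟 {k | P k ∈ U ∧ P (k + 1) ∈ V}).NeBot := by
      rw [← Filter.frequently_mem_iff_neBot]
      exact hfUV
    obtain ⟨ν, hνK, hν⟩ := hK.exists_mapClusterPt
      (f := atTop ⊓ 𝓟 {k | P k ∈ U ∧ P (k + 1) ∈ V}) (u := P) (by
        rw [Filter.le_principal_iff, Filter.mem_map]
        exact Filter.univ_mem' hP)
    have hνL : MapClusterPt ν atTop P := hν.mono (Filter.map_mono inf_le_left)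
    -- the filter along which `P` tends to `ν`
    set F : Filter ℕ := (atTop ⊓ 𝓟 {k | P k ∈ U ∧ P (k + 1) ∈ V}) ⊓ comap P (𝓝 ν) with hF
    have hFne : F.NeBot := by
      rw [hF, Filter.neBot_inf_comap_iff_map, inf_comm]
      exact hν
    have hFt : Tendsto P F (𝓝 ν) := tendsto_comap.mono_left inf_le_right
    have hFa : F ≤ atTop := inf_le_left.trans inf_le_left
    have hFm : ∀ᶠ k in F, P k ∈ U ∧ P (k + 1) ∈ V :=
      (inf_le_left.trans inf_le_right : F ≤ 𝓟 _) (Filter.mem_principal_self _)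
    have hFt1 := hstep F inferInstance hFa ν hFt
    rcases hAB hνL with h | h
    · have h1 : ∀ᶠ k in F, P (k + 1) ∈ U := hFt1 (hU.mem_nhds (hAU ⟨hνL, h⟩))
      obtain ⟨k, hk1, hk2⟩ := (h1.and hFm).exists
      exact Set.disjoint_left.1 hUV hk1 hk2.2
    · have h1 : ∀ᶠ k in F, P k ∈ V := hFt (hV.mem_nhds (hBV ⟨hνL, h⟩))
      obtain ⟨k, hk1, hk2⟩ := (h1.and hFm).exists
      exact Set.disjoint_left.1 hUV hk2.1 hk1

section laws

variable {S : Type*} [MetricSpace S] [MeasurableSpace S] [BorelSpace S]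

lemma integrable_of_bdd (P : ProbabilityMeasure S) {f : S → ℝ} (hc : Continuous f) {C : ℝ}
    (hb : ∀ x, |f x| ≤ C) : Integrable f (P : Measure S) := by
  refine Integrable.of_bound hc.aestronglyMeasurable C ?_
  exact Filter.Eventually.of_forall fun x => by rw [Real.norm_eq_abs]; exact hb x

/-- If the integrals of bounded Lipschitz functions for `P (k + 1)` and `P k` merge, then the two
sequences have the same limits. -/
theorem step_of_bl (P Q : ℕ → ProbabilityMeasure S)
    (h : ∀ g : S → ℝ, (∀ x, |g x| ≤ 1) → LipschitzWith 1 g →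
      Tendsto (fun k => ∫ x, g x ∂(Q k : Measure S) - ∫ x, g x ∂(P k : Measure S)) atTop (𝓝 0))
    (F : Filter ℕ) (hF : F.IsCountablyGenerated) (hFa : F ≤ atTop) (ν : ProbabilityMeasure S)
    (hν : Tendsto P F (𝓝 ν)) : Tendsto Q F (𝓝 ν) := by
  rw [tendsto_iff_forall_lipschitz_integral_tendsto] at hν ⊢
  rintro f ⟨C, hC⟩ ⟨L, hL⟩
  have h1 := hν f ⟨C, hC⟩ ⟨L, hL⟩
  rcases isEmpty_or_nonempty S with hS | ⟨⟨x0⟩⟩
  · simp only [Measure.eq_zero_of_isEmpty, integral_zero_measure]
    exact tendsto_const_nhds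
  -- normalise
  obtain ⟨M, hM⟩ : ∃ M : ℝ, M = max 1 (max (|f x0| + C) (L : ℝ)) := ⟨_, rfl⟩
  have hM1 : 1 ≤ M := by rw [hM]; exact le_max_left _ _
  have hM2 : |f x0| + C ≤ M := by rw [hM]; exact (le_max_left _ _).trans (le_max_right _ _)
  have hM3 : (L : ℝ) ≤ M := by rw [hM]; exact (le_max_right _ _).trans (le_max_right _ _)
  have hM0 : 0 < M := by linarith
  have hg := h (fun x => M⁻¹ * f x) (fun x => by
    rw [abs_mul, abs_of_pos (inv_pos.2 hM0), inv_mul_le_iff₀ hM0, mul_one]
    have h2 := hC x x0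
    rw [Real.dist_eq] at h2
    have h3 := abs_sub_abs_le_abs_sub (f x) (f x0)
    linarith) (by
    refine LipschitzWith.of_dist_le_mul fun x y => ?_
    rw [Real.dist_eq, ← mul_sub, abs_mul, abs_of_pos (inv_pos.2 hM0), NNReal.coe_one, one_mul,
      inv_mul_le_iff₀ hM0]
    have h2 := hL.dist_le_mul x y
    rw [Real.dist_eq] at h2
    exact h2.trans (mul_le_mul_of_nonneg_right hM3 dist_nonneg))
  have h3 := (hg.const_mul M).mono_left hFa
  have h4 := h1.add h3
  rw [mul_zero, add_zero] at h4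
  refine h4.congr fun k => ?_
  simp only [integral_const_mul]
  field_simp
  ring

/-- A set of laws with mass almost one on compact sets has compact closure. -/
theorem tight_compact [T2Space S] (P : ℕ → ProbabilityMeasure S)
    (h : ∀ ε : ℝ, 0 < ε → ∃ Q : Set S, IsCompact Q ∧ ∀ k, (P k : Measure S).real Qᶜ ≤ ε) :
    IsCompact (closure (Set.range P)) := by
  apply isCompact_closure_of_isTightMeasureSet
  rw [isTightMeasureSet_iff_exists_isCompact_measure_compl_le]
  intro ε hε
  rcases eq_or_ne ε ⊤ with rfl | hε'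
  · exact ⟨∅, isCompact_empty, fun μ _ => le_top⟩
  obtain ⟨Q, hQ, hQP⟩ := h ε.toReal (ENNReal.toReal_pos hε.ne' hε')
  refine ⟨Q, hQ, ?_⟩
  rintro _ ⟨μ, ⟨k, rfl⟩, rfl⟩
  have h1 := hQP k
  rw [Measure.real, ENNReal.toReal_le_toReal (measure_ne_top _ _) hε'] at h1
  exact h1

/-- Comparison of limits. -/
theorem le_of_bl (P Q : ℕ → ProbabilityMeasure S) (μ ν : ProbabilityMeasure S)
    (hP : Tendsto P atTop (𝓝 μ)) (hQ : Tendsto Q atTop (𝓝 ν)) (B : ℝ) (hB : 0 ≤ B)
    (b : ℕ → ℝ) (hb : Tendsto b atTop (𝓝 B))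
    (h : ∀ (L : ℝ≥0) (g : S → ℝ), (∀ x, 0 ≤ g x) → (∀ x, g x ≤ 1) → LipschitzWith L g →
      ∃ e : ℕ → ℝ, Tendsto e atTop (𝓝 0) ∧
      ∀ k, ∫ x, g x ∂(Q k : Measure S) ≤ b k * ∫ x, g x ∂(P k : Measure S) + e k)
    (A : Set S) (hA : MeasurableSet A) :
    (ν : Measure S).real A ≤ B * (μ : Measure S).real A := by
  -- closed sets
  have hclosed : ∀ F : Set S, IsClosed F → (ν : Measure S).real F ≤ B * (μ : Measure S).real F := by
    intro F hF
    let fs : ℕ → S → ℝ := fun n ω => thickenedIndicator (δ := (1 : ℝ) / (n + 1)) (by positivity) F ω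
    have key₁ : Tendsto (fun n => ∫ ω, fs n ω ∂(μ : Measure S)) atTop (𝓝 ((μ : Measure S).real F)) :=
      tendsto_integral_thickenedIndicator_of_isClosed μ hF (δs := fun n => (1 : ℝ) / (n + 1))
        (fun _ => by positivity) tendsto_one_div_add_atTop_nhds_zero_nat
    have key₂ : ∀ n, (ν : Measure S).real F ≤ ∫ ω, fs n ω ∂(ν : Measure S) := by
      intro n
      rw [← integral_indicator_one hF.measurableSet]
      refine integral_mono ?_ (integrable_thickenedIndicator _ _) ?_
      · exact (integrable_indicator_iff hF.measurableSet).mpr (integrable_const _).integrableOn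
      · have h : _ ≤ fs n :=
          indicator_le_thickenedIndicator (δ := (1 : ℝ) / (n + 1)) (by positivity) F
        simpa using! h
    have key₃ : ∀ n, ∫ ω, fs n ω ∂(ν : Measure S) ≤ B * ∫ ω, fs n ω ∂(μ : Measure S) := by
      intro n
      have hL : LipschitzWith _ (fs n) :=
        lipschitzWith_thickenedIndicator (δ := (1 : ℝ) / (n + 1)) (by positivity) F
      have h0 : ∀ x, 0 ≤ fs n x := fun x => by simp [fs]
      have h1 : ∀ x, fs n x ≤ 1 := fun x => thickenedIndicator_le_one _ _ _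
      obtain ⟨e, he, hk⟩ := h _ (fs n) h0 h1 hL
      have hdist : ∀ x y, dist (fs n x) (fs n y) ≤ 1 := fun x y => by
        rw [Real.dist_eq, abs_le]
        constructor <;> linarith [h0 x, h0 y, h1 x, h1 y]
      have hP' := (tendsto_iff_forall_lipschitz_integral_tendsto.1 hP) (fs n) ⟨1, hdist⟩ ⟨_, hL⟩
      have hQ' := (tendsto_iff_forall_lipschitz_integral_tendsto.1 hQ) (fs n) ⟨1, hdist⟩ ⟨_, hL⟩
      have hR := (hb.mul hP').add he
      rw [add_zero] at hR
      exact le_of_tendsto_of_tendsto' hQ' hR hk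
    exact ge_of_tendsto' (key₁.const_mul B) fun n => (key₂ n).trans (key₃ n)
  -- all sets, by inner regularity
  refine le_of_forall_pos_le_add fun ε hε => ?_
  obtain ⟨F, hFA, hF, hlt⟩ := hA.exists_isClosed_lt_add (μ := (ν : Measure S))
    (measure_ne_top _ _) (ε := ENNReal.ofReal ε) (by simpa using hε)
  have h1 : (ν : Measure S).real A ≤ (ν : Measure S).real F + ε := by
    have h2 := ENNReal.toReal_mono (by simp) hlt.le
    rw [ENNReal.toReal_add (measure_ne_top _ _) (by simp), ENNReal.toReal_ofReal hε.le] at h2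
    exact h2
  have h3 := hclosed F hF
  have h4 : (μ : Measure S).real F ≤ (μ : Measure S).real A := measureReal_mono hFA
  nlinarith [mul_le_mul_of_nonneg_left h4 hB]

end laws

end Q172.SawLim
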