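import Pool.Agent.Q172.SawLim.Soft

/-!
# Limit laws of uniform averages over finite sets
-/

set_option autoImplicit false

namespace Q172.SawLim

open MeasureTheory Filter Topology Set
open scoped NNReal ENNReal

noncomputable section

variable {α : Type*} {S : Type*}

/-- average over a finite set -/
def av (W : Finset α) (F : α → ℝ) : ℝ := (∑ w ∈ W, F w) / (W.card : ℝ)

lemma av_nonneg {W : Finset α} {F : α → ℝ} (h : ∀ w ∈ W, 0 ≤ F w) : 0 ≤ av W F :=
  div_nonneg (Finset.sum_nonneg h) (Nat.cast_nonneg _)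

lemma av_const {W : Finset α} (hW : W.Nonempty) (c : ℝ) : av W (fun _ => c) = c := by
  unfold av
  have : (0 : ℝ) < W.card := by exact_mod_cast hW.card_pos
  rw [Finset.sum_const, nsmul_eq_mul]
  field_simp

lemma av_mono {W : Finset α} {F G : α → ℝ} (h : ∀ w ∈ W, F w ≤ G w) : av W F ≤ av W G :=
  div_le_div_of_nonneg_right (Finset.sum_le_sum h) (Nat.cast_nonneg _)

lemma av_le {W : Finset α} (hW : W.Nonempty) {F : α → ℝ} {c : ℝ} (h : ∀ w ∈ W, F w ≤ c) :
    av W F ≤ c := (av_mono h).trans (av_const hW c).le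

variable [MetricSpace S] [MeasurableSpace S] [BorelSpace S]

/-- the law of `f` under the uniform measure on `W` -/
def lawM (W : Finset α) (f : α → S) : Measure S :=
  ∑ w ∈ W, (ENNReal.ofReal (1 / (W.card : ℝ))) • Measure.dirac (f w)

lemma lawM_univ {W : Finset α} (hW : W.Nonempty) (f : α → S) : lawM W f univ = 1 := by
  have : (0 : ℝ) < W.card := by exact_mod_cast hW.card_pos
  unfold lawM
  simp only [Measure.coe_finsetSum, Finset.sum_apply, Measure.smul_apply, measure_univ,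
    smul_eq_mul, mul_one, Finset.sum_const, nsmul_eq_mul]
  rw [← ENNReal.ofReal_natCast, ← ENNReal.ofReal_mul this.le]
  rw [mul_one_div_cancel this.ne', ENNReal.ofReal_one]

/-- the law of `f` under the uniform measure on `W`, as a probability measure -/
def law (W : Finset α) (hW : W.Nonempty) (f : α → S) : ProbabilityMeasure S :=
  ⟨lawM W f, ⟨lawM_univ hW f⟩⟩

lemma integral_law {W : Finset α} (hW : W.Nonempty) (f : α → S) {g : S → ℝ} (hg : Measurable g) :
    ∫ x, g x ∂(law W hW f : Measure S) = av W (fun w => g (f w)) := by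
  have : (0 : ℝ) < W.card := by exact_mod_cast hW.card_pos
  show ∫ x, g x ∂(lawM W f) = _
  unfold lawM
  have hint : ∀ w ∈ W, Integrable g ((ENNReal.ofReal (1 / (W.card : ℝ))) • Measure.dirac (f w)) := by
    intro w _
    refine Integrable.smul_measure ?_ ENNReal.ofReal_ne_top
    exact integrable_dirac' hg.stronglyMeasurable (by simp)
  rw [integral_finsetSum_measure hint]
  unfold av
  rw [Finset.sum_div]
  refine Finset.sum_congr rfl fun w _ => ?_
  rw [integral_smul_measure, integral_dirac' _ _ hg.stronglyMeasurable,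
    ENNReal.toReal_ofReal (by positivity), smul_eq_mul]
  ring

open scoped Classical in
lemma real_law {W : Finset α} (hW : W.Nonempty) (f : α → S) {A : Set S} (hA : MeasurableSet A) :
    (law W hW f : Measure S).real A = av W (fun w => if f w ∈ A then 1 else 0) := by
  rw [← integral_indicator_one hA, integral_law hW f (measurable_one.indicator hA)]
  rfl

variable [SecondCountableTopology S]

/-- the limit laws of `f n` under the uniform measure on `W n`, along `n ≡ p (mod 2)` -/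
def LimLaws (W : ℕ → Finset α) (f : ℕ → α → S) (p : ℕ) : Set (ProbabilityMeasure S) :=
  {ν | ∃ φ : ℕ → ℕ, StrictMono φ ∧ (∀ k, φ k % 2 = p) ∧
    ∀ g : BoundedContinuousFunction S ℝ,
      Tendsto (fun k => av (W (φ k)) (fun w => g (f (φ k) w))) atTop
        (𝓝 (∫ x, g x ∂(ν : Measure S)))}

lemma tendsto_law_iff (W : ℕ → Finset α) (hW : ∀ n, (W n).Nonempty) (f : ℕ → α → S) (φ : ℕ → ℕ)
    (ν : ProbabilityMeasure S) :
    Tendsto (fun k => law (W (φ k)) (hW (φ k)) (f (φ k))) atTop (𝓝 ν) ↔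
      ∀ g : BoundedContinuousFunction S ℝ,
      Tendsto (fun k => av (W (φ k)) (fun w => g (f (φ k) w))) atTop
        (𝓝 (∫ x, g x ∂(ν : Measure S))) := by
  rw [ProbabilityMeasure.tendsto_iff_forall_integral_tendsto]
  refine forall_congr' fun g => ?_
  simp only [integral_law _ _ g.continuous.measurable]

theorem limLaws_eq (W : ℕ → Finset α) (hW : ∀ n, (W n).Nonempty) (f : ℕ → α → S) {p : ℕ}
    (hp : p < 2) : LimLaws W f p =
      {ν | MapClusterPt ν atTop (fun k => law (W (2 * k + p)) (hW _) (f (2 * k + p)))} := by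
  ext ν
  constructor
  · rintro ⟨φ, h1, h2, h3⟩
    rw [← tendsto_law_iff W hW f φ ν] at h3
    have e : ∀ k, 2 * (φ k / 2) + p = φ k := fun k => by have := h2 k; omega
    have hψ : Tendsto (fun k => φ k / 2) atTop atTop := by
      refine tendsto_atTop_mono (f := fun k => k / 2) (fun k => ?_)
        (Nat.tendsto_div_const_atTop (by norm_num))
      exact Nat.div_le_div_right (h1.id_le k)
    refine MapClusterPt.of_comp hψ ?_
    have : (fun k => law (W (2 * k + p)) (hW _) (f (2 * k + p))) ∘ (fun k => φ k / 2) =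
        fun k => law (W (φ k)) (hW (φ k)) (f (φ k)) := by
      funext k
      simp only [Function.comp]
      congr 1 <;> simp only [e]
    rw [this]
    exact h3.mapClusterPt
  · intro hν
    obtain ⟨ψ, h1, h2⟩ := MapClusterPt.tendsto_subseq hν
    refine ⟨fun k => 2 * ψ k + p, fun a b hab => ?_, fun k => by simp only; omega, ?_⟩
    · have := h1 hab
      simp only
      omega
    · rw [← tendsto_law_iff W hW f (fun k => 2 * ψ k + p) ν]
      exact h2

open scoped Classical in
/-- tightness and merging imply that the set of limit laws is compact and connected -/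
theorem limLaws_connected (W : ℕ → Finset α) (hW : ∀ n, (W n).Nonempty) (f : ℕ → α → S)
    (htight : ∀ ε : ℝ, 0 < ε → ∃ Q : Set S, IsCompact Q ∧
      ∀ n, av (W n) (fun w => if f n w ∈ Q then 0 else 1) ≤ ε)
    (hmerge : ∀ g : S → ℝ, (∀ x, |g x| ≤ 1) → LipschitzWith 1 g →
      Tendsto (fun n => av (W (n + 2)) (fun w => g (f (n + 2) w)) -
        av (W n) (fun w => g (f n w))) atTop (𝓝 0)) {p : ℕ} (hp : p < 2) :
    IsCompact (LimLaws W f p) ∧ IsConnected (LimLaws W f p) := by
  rw [limLaws_eq W hW f hp]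
  refine connected_cluster _ (closure (Set.range fun k => law (W (2 * k + p)) (hW _)
    (f (2 * k + p)))) ?_ (fun k => subset_closure ⟨k, rfl⟩) ?_
  · refine tight_compact _ fun ε hε => ?_
    obtain ⟨Q, hQ, h⟩ := htight ε hε
    refine ⟨Q, hQ, fun k => ?_⟩
    rw [real_law _ _ hQ.measurableSet.compl]
    refine le_trans (le_of_eq ?_) (h (2 * k + p))
    congr 1
    funext w
    by_cases hw : f (2 * k + p) w ∈ Q
    · simp [hw]
    · simp [hw]
  · intro F hF hFa ν hν
    refine step_of_bl _ _ (fun g hg hL => ?_) F hF hFa ν hν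
    have h1 := (hmerge g hg hL).comp (show Tendsto (fun k : ℕ => 2 * k + p) atTop atTop from
      tendsto_atTop_mono (f := fun k => k) (fun k => by omega) tendsto_id)
    refine h1.congr fun k => ?_
    simp only [Function.comp]
    rw [integral_law _ _ hL.continuous.measurable, integral_law _ _ hL.continuous.measurable,
      show 2 * (k + 1) + p = 2 * k + p + 2 by ring]

theorem singleton_or_uncountable {L : Set (ProbabilityMeasure S)} (h : IsConnected L) :
    (∃ ν, L = {ν}) ∨ ¬ L.Countable := by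
  by_contra hcon
  push Not at hcon
  obtain ⟨h1, h2⟩ := hcon
  letI := TopologicalSpace.metrizableSpaceMetric (ProbabilityMeasure S)
  have h3 := h2.isTotallyDisconnected L le_rfl h.isPreconnected
  obtain ⟨ν, hν⟩ := h.nonempty
  exact h1 ν (h3.eq_singleton_of_mem hν)

open scoped Classical in
/-- comparison of the limit laws along the two parities -/
theorem limLaws_parity (W : ℕ → Finset α) (hW : ∀ n, (W n).Nonempty) (f : ℕ → α → S)
    (htight : ∀ ε : ℝ, 0 < ε → ∃ Q : Set S, IsCompact Q ∧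
      ∀ n, av (W n) (fun w => if f n w ∈ Q then 0 else 1) ≤ ε)
    (r : ℕ → ℝ) (c₁ c₂ M : ℝ) (hc₁ : 0 < c₁) (hM : 0 < M)
    (hr : ∀ n, 1 ≤ n → c₁ ≤ r n ∧ r n ≤ c₂)
    (h₁ : ∀ (L : ℝ≥0) (g : S → ℝ), (∀ x, 0 ≤ g x) → (∀ x, g x ≤ 1) → LipschitzWith L g →
      ∃ e : ℕ → ℝ, Tendsto e atTop (𝓝 0) ∧ ∀ n, 1 ≤ n →
      av (W (n + 1)) (fun w => g (f (n + 1) w)) ≤ 3 / r n * av (W n) (fun w => g (f n w)) + e n)
    (h₂ : ∀ (L : ℝ≥0) (g : S → ℝ), (∀ x, 0 ≤ g x) → (∀ x, g x ≤ 1) → LipschitzWith L g →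
      ∃ e : ℕ → ℝ, Tendsto e atTop (𝓝 0) ∧ ∀ n, 1 ≤ n →
      av (W n) (fun w => g (f n w)) ≤
        3 * r n / M * av (W (n + 1)) (fun w => g (f (n + 1) w)) + e n)
    {p : ℕ} (hp : p < 2) {ν : ProbabilityMeasure S} (hν : ν ∈ LimLaws W f p) :
    ∃ ν' ∈ LimLaws W f (1 - p), ∃ ρ : ℝ, 0 < ρ ∧ MapClusterPt ρ atTop r ∧
      ∀ A : Set S, MeasurableSet A →
      (ν' : Measure S).real A ≤ 3 / ρ * (ν : Measure S).real A ∧
      (ν : Measure S).real A ≤ 3 * ρ / M * (ν' : Measure S).real A := by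
  obtain ⟨φ, hφ, hφp, hφν⟩ := hν
  rw [← tendsto_law_iff W hW f φ ν] at hφν
  obtain ⟨P, hP⟩ : ∃ P : ℕ → ProbabilityMeasure S, P = fun n => law (W n) (hW n) (f n) := ⟨_, rfl⟩
  have hK : IsCompact (closure (Set.range P)) := by
    refine tight_compact _ fun ε hε => ?_
    obtain ⟨Q, hQ, h⟩ := htight ε hε
    refine ⟨Q, hQ, fun k => ?_⟩
    rw [hP]
    simp only
    rw [real_law _ _ hQ.measurableSet.compl]
    refine le_trans (le_of_eq ?_) (h k)
    congr 1
    funext w
    by_cases hw : f k w ∈ Q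
    · simp [hw]
    · simp [hw]
  have hmem : ∀ k, (P (φ (k + 1) + 1), r (φ (k + 1))) ∈ closure (Set.range P) ×ˢ Set.Icc c₁ c₂ :=
    fun k => ⟨subset_closure ⟨_, rfl⟩, hr _ (by
      have := hφ.id_le (k + 1)
      simp only [id] at this
      omega)⟩
  obtain ⟨⟨ν', ρ⟩, hlim, ψ, hψ, htend⟩ := (hK.prod isCompact_Icc).tendsto_subseq hmem
  rw [Prod.tendsto_iff] at htend
  obtain ⟨t1, t2⟩ := htend
  have hρ : 0 < ρ := lt_of_lt_of_le hc₁ hlim.2.1
  obtain ⟨θ, hθ⟩ : ∃ θ : ℕ → ℕ, θ = fun k => φ (ψ k + 1) := ⟨_, rfl⟩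
  have hθm : StrictMono θ := by
    rw [hθ]
    intro a b hab
    exact hφ (by have := hψ hab; omega)
  have hθ1 : ∀ k, 1 ≤ θ k := by
    intro k
    have := hφ.id_le (ψ k + 1)
    simp only [id] at this
    rw [hθ]
    simp only
    omega
  have hθa : Tendsto θ atTop atTop := hθm.tendsto_atTop
  have s1 : Tendsto (fun k => P (θ k + 1)) atTop (𝓝 ν') := by
    rw [hθ]; exact t1
  have s2 : Tendsto (fun k => r (θ k)) atTop (𝓝 ρ) := by
    rw [hθ]; exact t2
  have s3 : Tendsto (fun k => P (θ k)) atTop (𝓝 ν) := by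
    have h3 : Tendsto (fun k => ψ k + 1) atTop atTop :=
      tendsto_atTop_mono (f := fun k => k) (fun k => by
        have := hψ.id_le k
        simp only [id] at this
        omega) tendsto_id
    have h4 := hφν.comp h3
    rw [hθ, hP]
    exact h4
  refine ⟨ν', ⟨fun k => θ k + 1, fun a b hab => ?_, fun k => ?_, ?_⟩, ρ, hρ,
    MapClusterPt.of_comp hθa s2.mapClusterPt, fun A hA => ⟨?_, ?_⟩⟩
  · have := hθm hab
    simp only
    omega
  · have h5 := hφp (ψ k + 1)
    rw [hθ]
    simp only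
    omega
  · rw [← tendsto_law_iff W hW f (fun k => θ k + 1) ν']
    rw [hP] at s1
    exact s1
  · refine le_of_bl (fun k => P (θ k)) (fun k => P (θ k + 1)) ν ν' s3 s1 (3 / ρ) (by positivity)
      (fun k => 3 / r (θ k)) (tendsto_const_nhds.div s2 hρ.ne') (fun L g g0 g1 hL => ?_) A hA
    obtain ⟨e, he, hk⟩ := h₁ L g g0 g1 hL
    refine ⟨fun k => e (θ k), he.comp hθa, fun k => ?_⟩
    rw [hP]
    simp only
    rw [integral_law _ _ hL.continuous.measurable, integral_law _ _ hL.continuous.measurable]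
    exact hk (θ k) (hθ1 k)
  · refine le_of_bl (fun k => P (θ k + 1)) (fun k => P (θ k)) ν' ν s1 s3 (3 * ρ / M) (by positivity)
      (fun k => 3 * r (θ k) / M) ((s2.const_mul 3).div_const M) (fun L g g0 g1 hL => ?_) A hA
    obtain ⟨e, he, hk⟩ := h₂ L g g0 g1 hL
    refine ⟨fun k => e (θ k), he.comp hθa, fun k => ?_⟩
    rw [hP]
    simp only
    rw [integral_law _ _ hL.continuous.measurable, integral_law _ _ hL.continuous.measurable]
    exact hk (θ k) (hθ1 k)

end

lemma tv_aux {p p' b c q : ℝ} (hp : 0 ≤ p) (hp' : p' ≤ 1) (hq : 1 ≤ q)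
    (hc0 : 0 < c) (hb0 : 0 < b) (hbc : b * c = q ^ 2) (h1 : p' ≤ b * p) (h4 : 1 - p ≤ c * (1 - p')) :
    p' - p ≤ (q - 1) / (q + 1) := by
  rcases le_or_gt (p' - p) 0 with hd | hd
  · exact hd.trans (div_nonneg (by linarith) (by linarith))
  have hb : 1 < b := by
    by_contra hcon
    push Not at hcon
    nlinarith
  have hc : 1 < c := by
    by_contra hcon
    push Not at hcon
    nlinarith
  have hq1 : 1 < q := by
    by_contra hcon
    push Not at hcon
    have : q = 1 := le_antisymm hcon hq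
    subst this
    nlinarith
  have e1 : (c - 1) * (p' - p) ≤ (c - 1) * ((b - 1) * p) :=
    mul_le_mul_of_nonneg_left (by linarith) (by linarith)
  have e2 : (b - 1) * (p' - p) ≤ (b - 1) * ((c - 1) * (1 - p')) :=
    mul_le_mul_of_nonneg_left (by linarith) (by linarith)
  have e3 : 2 * q ≤ b + c := by
    have : (2 * q) ^ 2 ≤ (b + c) ^ 2 := by nlinarith [sq_nonneg (b - c)]
    exact le_of_sq_le_sq this (by linarith)
  have e4 : (p' - p) * (q ^ 2 - 1) ≤ (q - 1) ^ 2 := by
    have : (p' - p) * (b * c - 1) ≤ b * c - (b + c) + 1 := by nlinarith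
    rw [hbc] at this
    nlinarith
  rw [le_div_iff₀ (by linarith)]
  have e5 : (q - 1) * ((p' - p) * (q + 1)) ≤ (q - 1) * (q - 1) := by nlinarith
  exact le_of_mul_le_mul_left e5 (by linarith)

/-- If two probability vectors `(p, 1 - p)`, `(p', 1 - p')` satisfy `p' ≤ (3/ρ) p`,
`p ≤ (3ρ/m²) p'` and the same for the complements, then `|p - p'| ≤ (3 - m) / (3 + m)`. -/
theorem tv_bound {p p' ρ m : ℝ} (hρ : 0 < ρ) (hm : 0 < m) (hm3 : m ≤ 3) (hp0 : 0 ≤ p) (hp1 : p ≤ 1)
    (hp0' : 0 ≤ p') (hp1' : p' ≤ 1)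
    (h1 : p' ≤ 3 / ρ * p) (h2 : p ≤ 3 * ρ / m ^ 2 * p')
    (h3 : 1 - p' ≤ 3 / ρ * (1 - p)) (h4 : 1 - p ≤ 3 * ρ / m ^ 2 * (1 - p')) :
    |p - p'| ≤ (3 - m) / (3 + m) := by
  have hq : (3 / m - 1) / (3 / m + 1) = (3 - m) / (3 + m) := by field_simp
  have hq1 : 1 ≤ 3 / m := by rw [le_div_iff₀ hm]; linarith
  have hbc : 3 / ρ * (3 * ρ / m ^ 2) = (3 / m) ^ 2 := by field_simp
  rw [← hq, abs_le]
  constructor
  · have := tv_aux hp0 hp1' hq1 (by positivity) (by positivity) hbc h1 h4
    linarith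
  · have := tv_aux hp0' hp1 hq1 (by positivity) (by positivity)
      (by rw [mul_comm]; exact hbc : 3 * ρ / m ^ 2 * (3 / ρ) = (3 / m) ^ 2) h2 h3
    linarith

end Q172.SawLim
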